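import Mathlib
import Pool.Agent.H16.Chap4

set_option autoImplicit false

namespace Pool.Agent.Results.MP_d17a30_nt.DetEqX

open Polynomial

theorem result (p : ℕ) [Fact p.Prime] (h : p % 4 = 3) :
    Matrix.det (Matrix.of fun j k : Fin ((p - 1) / 2) =>
      (X : ℤ[X]) + C (legendreSym p ((((j : ℕ) : ℤ) + 1) - (((k : ℕ) : ℤ) + 1)))) = X := by
  obtain ⟨m, hm⟩ : ∃ m, (p - 1) / 2 = m + 1 := ⟨(p - 3) / 2, by omega⟩
  rw [hm]
  simpa using Pool.Agent.H16.Chap.thmA (R := ℤ[X]) h (m := m) (by omega) X 0 0 0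

end Pool.Agent.Results.MP_d17a30_nt.DetEqX
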